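import Mathlib
import Pool.Agent.H38.RB.Targets
import Pool.Agent.H38.PS.Targets

/-!
# Asymptotic formula for the number of all admissible triples ordered by radical: definitions
-/

set_option autoImplicit false

open Pool.Agent.H38.RB Pool.Agent.H38.PS

namespace Pool.Agent.H82.AS

/-! ## squarefull parts -/

/-- squarefull numbers -/
def Sqf (n : ℕ) : Prop := ∀ p : ℕ, p.Prime → p ∣ n → p ^ 2 ∣ n

/-- the quotient of `n` and its radical -/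
noncomputable def ex (n : ℕ) : ℝ := (n : ℝ) / (pd n.primeFactors : ℝ)

/-- the squarefull part of `n` -/
def sq (n : ℕ) : ℕ := ∏ p ∈ n.primeFactors.filter (fun p => p ^ 2 ∣ n), p ^ n.factorization p

/-! ## sets of triples -/

/-- all admissible triples with radical at most `X` -/
def NS (X : ℝ) : Set (Fin 3 → ℤ) := {x | Adm x ∧ (pd (pr x).primeFactors : ℝ) ≤ X}

/-- the admissible triples with radical at most `X` and a squarefull divisor larger than `Y` -/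
def TL (X Y : ℝ) : Set (Fin 3 → ℤ) :=
  {x | Adm x ∧ (pd (pr x).primeFactors : ℝ) ≤ X ∧ ∃ D : ℕ, Sqf D ∧ D ∣ pr x ∧ Y < (D : ℝ)}

/-- the pairs of positive integers with `β 0 ∣ a`, `β 1 ∣ b`, `β 2 ∣ a + b`, `a b (a + b) ≤ T` -/
def PQ (β : Fin 3 → ℕ) (T : ℝ) : Set (ℕ × ℕ) :=
  {z | 1 ≤ z.1 ∧ 1 ≤ z.2 ∧ β 0 ∣ z.1 ∧ β 1 ∣ z.2 ∧ β 2 ∣ z.1 + z.2 ∧
    ((z.1 * z.2 * (z.1 + z.2) : ℕ) : ℝ) ≤ T}

/-- the triples with sum `0`, not necessarily coprime, with `d i ∣ y i`, `|y 0 y 1 y 2| ≤ T` -/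
def L3 (d : Fin 3 → ℕ) (T : ℝ) : Set (Fin 3 → ℤ) :=
  {y | (∀ i, y i ≠ 0) ∧ y 0 + y 1 + y 2 = 0 ∧ (∀ i, (d i : ℤ) ∣ y i) ∧ (pr y : ℝ) ≤ T}

/-- the admissible triples with `d i ∣ x i`, `|x 0 x 1 x 2| ≤ T` -/
def Ad (d : Fin 3 → ℕ) (T : ℝ) : Set (Fin 3 → ℤ) :=
  {x | Adm x ∧ (∀ i, (d i : ℤ) ∣ x i) ∧ (pr x : ℝ) ≤ T}

/-- the admissible triples with `D ∣ x 0 x 1 x 2`, `|x 0 x 1 x 2| ≤ T` -/
def AD (D : ℕ) (T : ℝ) : Set (Fin 3 → ℤ) := {x | Adm x ∧ D ∣ pr x ∧ (pr x : ℝ) ≤ T}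

/-! ## constants -/

/-- the positive root `b` of `a b (a + b) = T` -/
noncomputable def gT (T a : ℝ) : ℝ := (-a + Real.sqrt (a ^ 2 + 4 * T / a)) / 2

/-- the area of `a b (a + b) ≤ 1` in the first quadrant -/
noncomputable def AR : ℝ := ∫ a in Set.Ioi (0 : ℝ), gT 1 a

/-- the density of coprimality, given `D` -/
noncomputable def kp (D : ℕ) : ℝ :=
  ∑' k : ℕ, (ArithmeticFunction.moebius k : ℝ) * (Nat.gcd k D : ℝ) / (k : ℝ) ^ 2

/-- the number of ordered factorizations of `D` into three pairwise coprime factors -/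
noncomputable def w3 (D : ℕ) : ℝ := 3 ^ D.primeFactors.card

/-- the Moebius transform of `ex ^ (2 / 3)` -/
noncomputable def Gx (D : ℕ) : ℝ :=
  ∑ E ∈ D.divisors, (ArithmeticFunction.moebius (D / E) : ℝ) * ex E ^ (2 / 3 : ℝ)

/-- the terms of the singular series -/
noncomputable def Sr (D : ℕ) : ℝ := w3 D * Gx D * kp D / D

/-- the local factor at `p` -/
noncomputable def lf (p : ℕ) : ℝ :=
  (1 - 1 / (p : ℝ)) * (1 + 1 / (p : ℝ) + 3 / (p : ℝ) ^ (4 / 3 : ℝ) + 3 / (p : ℝ) ^ (5 / 3 : ℝ))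

end Pool.Agent.H82.AS
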