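import Mathlib
import Pool.Agent.H82.AS.Defs
import Pool.Agent.H82.TG.Targets
import Pool.Agent.H82.RD.Targets

/-!
# Asymptotic formula for the number of all admissible triples ordered by radical: targets

Every `T_XXX : Prop` is to be proved as a theorem `pf_XXX : T_XXX` in its own file, other targets
being hypotheses.
-/

set_option autoImplicit false

open Pool.Agent.H38.RB Pool.Agent.H38.PS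

namespace Pool.Agent.H82.AS

/-! ## Lattice points -/

/-- GTB: the function `gT`. -/
def T_GTB : Prop := ∀ T : ℝ, 0 ≤ T →
  (∀ a b : ℝ, 0 < a → 0 < b → (a * b * (a + b) ≤ T ↔ b ≤ gT T a)) ∧
  AntitoneOn (gT T) (Set.Ioi 0) ∧
  (∀ a : ℝ, 0 < a → 0 ≤ gT T a ∧ gT T a ≤ Real.sqrt (T / a) ∧ gT T a ≤ T / a ^ 2) ∧
  MeasureTheory.IntegrableOn (gT T) (Set.Ioi 0) ∧
  ∫ a in Set.Ioi (0 : ℝ), gT T a = AR * T ^ (2 / 3 : ℝ)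

/-- LPQ: lattice points in the first quadrant. -/
def T_LPQ : Prop := ∃ C : ℝ, 0 < C ∧ ∀ (β : Fin 3 → ℕ) (T : ℝ), (∀ i, 1 ≤ β i) →
  (β 1).Coprime (β 2) → 0 ≤ T → (PQ β T).Finite ∧
  |((PQ β T).ncard : ℝ) - AR * T ^ (2 / 3 : ℝ) / ((β 0 : ℝ) * β 1 * β 2)| ≤ C * T ^ (1 / 2 : ℝ)

/-- LTR: triples which are not necessarily coprime. -/
def T_LTR : Prop := ∃ C : ℝ, 0 < C ∧ ∀ (d : Fin 3 → ℕ) (T : ℝ), (∀ i, 1 ≤ d i) →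
  (∀ i j, i ≠ j → (d i).Coprime (d j)) → 0 ≤ T → (L3 d T).Finite ∧
  |((L3 d T).ncard : ℝ) - 6 * AR * T ^ (2 / 3 : ℝ) / ((d 0 : ℝ) * d 1 * d 2)| ≤
    C * T ^ (1 / 2 : ℝ)

/-- MOB: coprime triples with given divisors. -/
def T_MOB : Prop := ∃ C : ℝ, 0 < C ∧ ∀ (d : Fin 3 → ℕ) (T : ℝ), (∀ i, 1 ≤ d i) →
  (∀ i j, i ≠ j → (d i).Coprime (d j)) → 0 ≤ T → (Ad d T).Finite ∧
  |((Ad d T).ncard : ℝ) - 6 * AR * T ^ (2 / 3 : ℝ) * kp (d 0 * d 1 * d 2) /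
    ((d 0 : ℝ) * d 1 * d 2)| ≤ C * T ^ (1 / 2 : ℝ)

/-- FAC: the number of factorizations into three pairwise coprime factors. -/
def T_FAC : Prop := ∀ D : ℕ, 1 ≤ D →
  {d : Fin 3 → ℕ | d 0 * d 1 * d 2 = D ∧ ∀ i j, i ≠ j → (d i).Coprime (d j)}.Finite ∧
  ({d : Fin 3 → ℕ | d 0 * d 1 * d 2 = D ∧ ∀ i j, i ≠ j → (d i).Coprime (d j)}.ncard : ℝ) = w3 D

/-- ADT: coprime triples for which the product is divisible by `D`. -/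
def T_ADT : Prop := ∃ C : ℝ, 0 < C ∧ ∀ (D : ℕ) (T : ℝ), 1 ≤ D → 0 ≤ T → (AD D T).Finite ∧
  |((AD D T).ncard : ℝ) - 6 * AR * T ^ (2 / 3 : ℝ) * kp D * w3 D / D| ≤
    C * w3 D * T ^ (1 / 2 : ℝ)

/-! ## Squarefull numbers -/

/-- SQB: the squarefull part. -/
def T_SQB : Prop := ∀ n : ℕ, 1 ≤ n → Sqf (sq n) ∧ sq n ∣ n ∧ ex (sq n) = ex n ∧
  (∀ D : ℕ, Sqf D → D ∣ n → D ∣ sq n) ∧ (∀ E : ℕ, E ∣ n → 1 ≤ ex E ∧ ex E ≤ ex n) ∧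
  ex n ≤ n ∧ (Sqf n → (pd n.primeFactors) ^ 2 ≤ n)

/-- DVB: the divisor bound. -/
def T_DVB : Prop := ∀ ε : ℝ, 0 < ε → ∃ C : ℝ, 0 < C ∧ ∀ n : ℕ, 1 ≤ n →
  (n.divisors.card : ℝ) ≤ C * (n : ℝ) ^ ε

/-- RDC: the number of integers with a given radical. -/
def T_RDC : Prop := ∀ ε : ℝ, 0 < ε → ∃ C : ℝ, 0 < C ∧ ∀ (r : ℕ) (W : ℝ) (F : Finset ℕ), 1 ≤ W →
  (∀ n ∈ F, 1 ≤ n ∧ (n : ℝ) ≤ W ∧ pd n.primeFactors = r) → (F.card : ℝ) ≤ C * W ^ ε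

/-- SQT: squarefull numbers in a dyadic interval. -/
def T_SQT : Prop := ∀ ε : ℝ, 0 < ε → ∃ C : ℝ, 0 < C ∧ ∀ (W : ℝ) (F : Finset ℕ), 1 ≤ W →
  (∀ D ∈ F, Sqf D ∧ 1 ≤ D ∧ (D : ℝ) ≤ W) →
  (F.card : ℝ) ≤ C * W ^ (1 / 2 + ε) ∧
  ((∀ D ∈ F, W / 2 < (D : ℝ)) → ∑ D ∈ F, ex D ^ (2 / 3 : ℝ) / D ≤ C * W ^ (-(1 / 6) + ε))

/-- SQS: the sum over large squarefull numbers. -/
def T_SQS : Prop := ∃ C : ℝ, 0 < C ∧ ∀ (Y : ℝ) (F : Finset ℕ), 1 ≤ Y →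
  (∀ D ∈ F, Sqf D ∧ 1 ≤ D ∧ Y ≤ (D : ℝ)) →
  ∑ D ∈ F, (D : ℝ) ^ (1 / 24 : ℝ) * ex D ^ (2 / 3 : ℝ) / D ≤ C * Y ^ (-(1 / 12) : ℝ)

/-- PAI: sums which vanish if `D` is not squarefull. -/
def T_PAI : Prop := ∀ (h : ℝ → ℝ) (D : ℕ), 1 ≤ D → ¬ Sqf D →
  ∑ E ∈ D.divisors, (ArithmeticFunction.moebius (D / E) : ℝ) * h (ex E) = 0

/-- GBD: size of the terms of the singular series. -/
def T_GBD : Prop := ∃ C : ℝ, 0 < C ∧ ∀ D : ℕ, 1 ≤ D → (¬ Sqf D → Gx D = 0) ∧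
  |w3 D * Gx D * kp D| ≤ C * (D : ℝ) ^ (1 / 24 : ℝ) * ex D ^ (2 / 3 : ℝ)

/-- CVG: the singular series converges. -/
def T_CVG : Prop := Summable Sr ∧ ∃ C : ℝ, 0 < C ∧ ∀ Y : ℝ, 1 ≤ Y →
  |∑' D : ℕ, Sr D - ∑ D ∈ Finset.Icc 1 ⌊Y⌋₊, Sr D| ≤ C * Y ^ (-(1 / 12) : ℝ)

/-! ## Triples with a large squarefull divisor -/

/-- PGN: primitive points of a lattice in a box. -/
def T_PGN : Prop := ∀ (F : Finset (ℤ × ℤ)) (D : ℕ) (A B : ℝ), 1 ≤ D → 0 < A → 0 ≤ B →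
  (∀ P ∈ F, IsCoprime P.1 P.2 ∧ A / 2 < |(P.1 : ℝ)| ∧ |(P.1 : ℝ)| ≤ A ∧ |(P.2 : ℝ)| ≤ B) →
  (∀ P ∈ F, ∀ Q ∈ F, (D : ℤ) ∣ P.1 * Q.2 - P.2 * Q.1) → (F.card : ℝ) ≤ 16 * A * B / D + 8

/-- BXD: triples with given divisors, of bounded height. -/
def T_BXD : Prop := ∃ C : ℝ, 0 < C ∧ ∀ (d : Fin 3 → ℕ) (T H : ℝ), (∀ i, 1 ≤ d i) →
  (∀ i j, i ≠ j → (d i).Coprime (d j)) → 1 ≤ T → 2 ≤ H →
  {x | Adm x ∧ (∀ i, (d i : ℤ) ∣ x i) ∧ (pr x : ℝ) ≤ T ∧ (ht x : ℝ) ≤ H}.Finite ∧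
  ({x | Adm x ∧ (∀ i, (d i : ℤ) ∣ x i) ∧ (pr x : ℝ) ≤ T ∧ (ht x : ℝ) ≤ H}.ncard : ℝ) ≤
    C * Real.log H * (T ^ (2 / 3 : ℝ) / ((d 0 : ℝ) * d 1 * d 2) + 1)

/-- TLB: the triples of height at most `X ^ (7 / 18)` with a large squarefull divisor. -/
def T_TLB : Prop := ∀ η : ℝ, 0 < η → ∃ c C : ℝ, 0 < c ∧ 0 < C ∧ ∀ X : ℝ, 1 ≤ X →
  {x | x ∈ TL X (X ^ η) ∧ (ht x : ℝ) ≤ X ^ (7 / 18 : ℝ)}.Finite ∧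
  ({x | x ∈ TL X (X ^ η) ∧ (ht x : ℝ) ≤ X ^ (7 / 18 : ℝ)}.ncard : ℝ) ≤ C * X ^ (2 / 3 - c)

/-- TAL: the triples of any height with a large squarefull divisor. -/
def T_TAL : Prop := ∀ η : ℝ, 0 < η → ∃ c C : ℝ, 0 < c ∧ 0 < C ∧ ∀ X : ℝ, 1 ≤ X →
  (TL X (X ^ η)).Finite ∧ ((TL X (X ^ η)).ncard : ℝ) ≤ C * X ^ (2 / 3 - c)

/-! ## The asymptotic formula -/

/-- IDN: the count as a sum over divisors. -/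
def T_IDN : Prop := ∀ ε : ℝ, 0 < ε → ∃ C : ℝ, 0 < C ∧ ∀ X Y : ℝ, 1 ≤ Y → Y ≤ X → (NS X).Finite →
  |((NS X).ncard : ℝ) - ∑ D ∈ Finset.Icc 1 ⌊Y⌋₊, ∑ E ∈ D.divisors,
    (ArithmeticFunction.moebius (D / E) : ℝ) * ((AD D (X * ex E)).ncard : ℝ)| ≤
    C * X ^ ε * ((TL X Y).ncard : ℝ)

/-- ASY: the asymptotic formula. -/
def T_ASY : Prop := ∃ c C : ℝ, 0 < c ∧ 0 < C ∧ ∀ X : ℝ, 1 ≤ X → (NS X).Finite ∧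
  |((NS X).ncard : ℝ) - 6 * AR * (∑' D : ℕ, Sr D) * X ^ (2 / 3 : ℝ)| ≤ C * X ^ (2 / 3 - c)

/-! ## The constant -/

/-- KPE: the density of coprimality. -/
def T_KPE : Prop := HasProd (fun p : Nat.Primes => 1 - 1 / ((p : ℕ) : ℝ) ^ 2) (kp 1) ∧
  ∀ D : ℕ, 1 ≤ D → kp D = kp 1 * ∏ p ∈ D.primeFactors, (p : ℝ) / (p + 1)

/-- GXE: the values of `Gx`. -/
def T_GXE : Prop := Gx 1 = 1 ∧ (∀ m n : ℕ, m.Coprime n → Gx (m * n) = Gx m * Gx n) ∧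
  (∀ p : ℕ, p.Prime → Gx p = 0 ∧ ∀ a : ℕ, Gx (p ^ (a + 2)) =
    (p : ℝ) ^ (2 * ((a : ℝ) + 1) / 3) - (p : ℝ) ^ (2 * (a : ℝ) / 3))

/-- EUL: the Euler product. -/
def T_EUL : Prop := HasProd (fun p : Nat.Primes => lf p) (∑' D : ℕ, Sr D)

/-- ARI: the area as an integral. -/
def T_ARI : Prop := 2 * AR = ∫ t in Set.Ioi (0 : ℝ), (t * (1 + t)) ^ (-(2 / 3) : ℝ)

/-- BET: the beta integral. -/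
def T_BET : Prop := ∫ t in Set.Ioi (0 : ℝ), (t * (1 + t)) ^ (-(2 / 3) : ℝ) =
  Real.Gamma (1 / 3) ^ 2 / Real.Gamma (2 / 3)

end Pool.Agent.H82.AS
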