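import Mathlib
import Pool.Agent.H82.AS.Targets

/-!
# The tail of the height of the admissible triples ordered by radical: targets
-/

set_option autoImplicit false

open Pool.Agent.H38.RB Pool.Agent.H38.PS

namespace Pool.Agent.H82.AS

/-- SQU: the sum over squarefull numbers. -/
def T_SQU : Prop := ∀ θ : ℝ, 0 ≤ θ → θ < 1 → ∃ e C : ℝ, 0 < e ∧ 0 < C ∧ ∀ F : Finset ℕ,
  (∀ D ∈ F, Sqf D ∧ 1 ≤ D) → ∑ D ∈ F, (D : ℝ) ^ e * ex D ^ ((2 + θ) / 3) / D ≤ C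

/-- BXM: triples with given divisors, of height between `μ` and `H`. -/
def T_BXM : Prop := ∃ C : ℝ, 0 < C ∧ ∀ (d : Fin 3 → ℕ) (T H μ : ℝ), (∀ i, 1 ≤ d i) →
  (∀ i j, i ≠ j → (d i).Coprime (d j)) → 1 ≤ T → 2 ≤ H → 0 < μ →
  {x | Adm x ∧ (∀ i, (d i : ℤ) ∣ x i) ∧ (pr x : ℝ) ≤ T ∧ μ < (ht x : ℝ) ∧ (ht x : ℝ) ≤ H}.Finite ∧
  ({x | Adm x ∧ (∀ i, (d i : ℤ) ∣ x i) ∧ (pr x : ℝ) ≤ T ∧ μ < (ht x : ℝ) ∧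
    (ht x : ℝ) ≤ H}.ncard : ℝ) ≤
    C * (min (T / μ) (T ^ (2 / 3 : ℝ)) / ((d 0 : ℝ) * d 1 * d 2) + Real.log H)

/-- TIR: the triples with radical at most `R` and height between `μ` and `R ^ (7 / 18)`. -/
def T_TIR : Prop := ∀ θ : ℝ, 0 ≤ θ → θ < 1 → ∃ C : ℝ, 0 < C ∧ ∀ R μ : ℝ, 1 ≤ R → 0 < μ →
  {x | Adm x ∧ (pd (pr x).primeFactors : ℝ) ≤ R ∧ μ < (ht x : ℝ) ∧
    (ht x : ℝ) ≤ R ^ (7 / 18 : ℝ)}.Finite ∧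
  ({x | Adm x ∧ (pd (pr x).primeFactors : ℝ) ≤ R ∧ μ < (ht x : ℝ) ∧
    (ht x : ℝ) ≤ R ^ (7 / 18 : ℝ)}.ncard : ℝ) ≤
    C * (R ^ ((2 + θ) / 3) * μ ^ (-θ) + R ^ (5 / 8 : ℝ))

/-- the admissible triples with radical at most `X` and height larger than `lam rad ^ (1 / 3)` -/
def TT (X lam : ℝ) : Set (Fin 3 → ℤ) :=
  {x | Adm x ∧ (pd (pr x).primeFactors : ℝ) ≤ X ∧
    lam * (pd (pr x).primeFactors : ℝ) ^ (1 / 3 : ℝ) < (ht x : ℝ)}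

/-- TIL: the tail of the height. -/
def T_TIL : Prop := ∃ δ : ℝ, 0 < δ ∧ ∀ θ : ℝ, 0 ≤ θ → θ < 1 → ∃ C : ℝ, 0 < C ∧
  ∀ X lam : ℝ, 1 ≤ X → 1 ≤ lam → (TT X lam).Finite ∧
  ((TT X lam).ncard : ℝ) ≤ C * (lam ^ (-θ) + X ^ (-δ)) * X ^ (2 / 3 : ℝ)

/-- LTL: the lower bound for the tail. -/
def T_LTL : Prop := ∃ c : ℝ, 0 < c ∧ ∀ X lam : ℝ, 1 ≤ lam → 3 * lam ≤ X ^ (1 / 6 : ℝ) →
  {x | x ∈ TT X lam ∧ (ht x : ℝ) ≤ X}.Finite ∧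
  c * lam⁻¹ * X ^ (2 / 3 : ℝ) ≤ ({x | x ∈ TT X lam ∧ (ht x : ℝ) ≤ X}.ncard : ℝ)

end Pool.Agent.H82.AS
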