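import Mathlib
import Pool.Agent.H82.AS.Targets

/-!
# ASY: the asymptotic formula
-/

set_option autoImplicit false

open Pool.Agent.H38.RB Pool.Agent.H38.PS

namespace Pool.Agent.H82.AS

theorem w3_le {D : ℕ} (hD : 1 ≤ D) : w3 D ≤ (D : ℝ) ^ 2 := by
  have h1 : 2 ^ D.primeFactors.card ≤ D := by
    calc 2 ^ D.primeFactors.card ≤ ∏ p ∈ D.primeFactors, p :=
          Finset.pow_card_le_prod _ _ _ fun p hp => (Nat.prime_of_mem_primeFactors hp).two_le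
      _ ≤ D := Nat.le_of_dvd (by omega) (Nat.prod_primeFactors_dvd D)
  have h2 : (2 : ℝ) ^ D.primeFactors.card ≤ D := by exact_mod_cast h1
  unfold w3
  calc (3 : ℝ) ^ D.primeFactors.card ≤ (2 ^ 2) ^ D.primeFactors.card := by
        gcongr; norm_num
    _ = (2 ^ D.primeFactors.card) ^ 2 := by rw [← pow_mul, ← pow_mul, mul_comm]
    _ ≤ (D : ℝ) ^ 2 := by gcongr

theorem w3_nonneg (D : ℕ) : 0 ≤ w3 D := by unfold w3; positivity

theorem ex_nonneg (n : ℕ) : 0 ≤ ex n := by unfold ex; positivity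

theorem ex_le (n : ℕ) : ex n ≤ n := by
  unfold ex pd
  have h : (1 : ℝ) ≤ ((∏ p ∈ n.primeFactors, p : ℕ) : ℝ) := by
    have : 0 < ∏ p ∈ n.primeFactors, p :=
      Finset.prod_pos fun p hp => (Nat.prime_of_mem_primeFactors hp).pos
    exact_mod_cast this
  exact div_le_self (by positivity) h

theorem abs_moebius_le (n : ℕ) : |(ArithmeticFunction.moebius n : ℝ)| ≤ 1 := by
  have h := ArithmeticFunction.abs_moebius_le_one (n := n)
  have : ((|ArithmeticFunction.moebius n| : ℤ) : ℝ) ≤ 1 := by exact_mod_cast h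
  simpa using this

theorem pf_ASY (hTAL : T_TAL) (hADT : T_ADT) (hIDN : T_IDN) (hCVG : T_CVG)
    (hTFI : Pool.Agent.H82.RD.T_TFI) : T_ASY := by
  obtain ⟨c1, C1, hc1, hC1, hT⟩ := hTAL (1 / 100) (by norm_num)
  obtain ⟨C2, hC2, hA⟩ := hADT
  obtain ⟨C3, hC3, hI⟩ := hIDN (c1 / 2) (by positivity)
  obtain ⟨hS, C4, hC4, hV⟩ := hCVG
  obtain ⟨C5, -, hF⟩ := hTFI 1 one_pos
  refine ⟨min (c1 / 2) (1 / 1200), C3 * C1 + C2 + |6 * AR| * C4, by positivity, by positivity,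
    fun X hX => ?_⟩
  have hX0 : (0 : ℝ) < X := by linarith
  have hfin : (NS X).Finite := (hF X hX).1
  refine ⟨hfin, ?_⟩
  set Y : ℝ := X ^ (1 / 100 : ℝ) with hY
  have hY1 : 1 ≤ Y := Real.one_le_rpow hX (by norm_num)
  have hYX : Y ≤ X := by
    calc Y ≤ X ^ (1 : ℝ) := Real.rpow_le_rpow_of_exponent_le hX (by norm_num)
      _ = X := Real.rpow_one X
  set c : ℝ := min (c1 / 2) (1 / 1200) with hc
  have hcc1 : c ≤ c1 / 2 := min_le_left _ _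
  have hcc2 : c ≤ 1 / 1200 := min_le_right _ _
  -- the first error
  have e1 : |((NS X).ncard : ℝ) - ∑ D ∈ Finset.Icc 1 ⌊Y⌋₊, ∑ E ∈ D.divisors,
      (ArithmeticFunction.moebius (D / E) : ℝ) * ((AD D (X * ex E)).ncard : ℝ)| ≤
      C3 * C1 * X ^ (2 / 3 - c) := by
    calc _ ≤ C3 * X ^ (c1 / 2) * ((TL X Y).ncard : ℝ) := hI X Y hY1 hYX hfin
      _ ≤ C3 * X ^ (c1 / 2) * (C1 * X ^ (2 / 3 - c1)) := by
          gcongr
          exact (hT X hX).2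
      _ = C3 * C1 * (X ^ (c1 / 2) * X ^ (2 / 3 - c1)) := by ring
      _ = C3 * C1 * X ^ (2 / 3 - c1 / 2) := by
          rw [← Real.rpow_add hX0]
          ring_nf
      _ ≤ C3 * C1 * X ^ (2 / 3 - c) := by
          gcongr
  -- the second error
  have e2 : |∑ D ∈ Finset.Icc 1 ⌊Y⌋₊, ∑ E ∈ D.divisors,
      (ArithmeticFunction.moebius (D / E) : ℝ) * ((AD D (X * ex E)).ncard : ℝ) -
      ∑ D ∈ Finset.Icc 1 ⌊Y⌋₊, ∑ E ∈ D.divisors, (ArithmeticFunction.moebius (D / E) : ℝ) *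
        (6 * AR * (X * ex E) ^ (2 / 3 : ℝ) * kp D * w3 D / D)| ≤ C2 * X ^ (2 / 3 - c) := by
    rw [← Finset.sum_sub_distrib]
    have hb : ∀ D ∈ Finset.Icc 1 ⌊Y⌋₊, |∑ E ∈ D.divisors,
        (ArithmeticFunction.moebius (D / E) : ℝ) * ((AD D (X * ex E)).ncard : ℝ) -
        ∑ E ∈ D.divisors, (ArithmeticFunction.moebius (D / E) : ℝ) *
        (6 * AR * (X * ex E) ^ (2 / 3 : ℝ) * kp D * w3 D / D)| ≤
        Y * (C2 * Y ^ 2 * (X * Y) ^ (1 / 2 : ℝ)) := by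
      intro D hD
      rw [Finset.mem_Icc] at hD
      have hD0 : D ≠ 0 := by omega
      have hDY : (D : ℝ) ≤ Y := (Nat.le_floor_iff (by linarith)).1 hD.2
      rw [← Finset.sum_sub_distrib]
      calc _ ≤ ∑ E ∈ D.divisors, |(ArithmeticFunction.moebius (D / E) : ℝ) *
            ((AD D (X * ex E)).ncard : ℝ) - (ArithmeticFunction.moebius (D / E) : ℝ) *
            (6 * AR * (X * ex E) ^ (2 / 3 : ℝ) * kp D * w3 D / D)| :=
            Finset.abs_sum_le_sum_abs _ _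
        _ ≤ ∑ _E ∈ D.divisors, C2 * Y ^ 2 * (X * Y) ^ (1 / 2 : ℝ) := by
            refine Finset.sum_le_sum fun E hE => ?_
            have hED : E ≤ D := Nat.divisor_le hE
            have hXE : 0 ≤ X * ex E := mul_nonneg hX0.le (ex_nonneg E)
            rw [← mul_sub, abs_mul]
            have h1 := (hA D (X * ex E) hD.1 hXE).2
            have hEY : ex E ≤ Y := (ex_le E).trans ((Nat.cast_le.2 hED).trans hDY)
            calc _ ≤ 1 * (C2 * w3 D * (X * ex E) ^ (1 / 2 : ℝ)) :=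
                  mul_le_mul (abs_moebius_le _) h1 (abs_nonneg _) zero_le_one
              _ ≤ C2 * Y ^ 2 * (X * Y) ^ (1 / 2 : ℝ) := by
                  rw [one_mul]
                  have hw : w3 D ≤ Y ^ 2 := (w3_le hD.1).trans (by gcongr)
                  gcongr
        _ = (D.divisors.card : ℝ) * (C2 * Y ^ 2 * (X * Y) ^ (1 / 2 : ℝ)) := by
            rw [Finset.sum_const, nsmul_eq_mul]
        _ ≤ Y * (C2 * Y ^ 2 * (X * Y) ^ (1 / 2 : ℝ)) := by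
            gcongr
            exact (Nat.cast_le.2 (Nat.card_divisors_le_self D)).trans hDY
    calc _ ≤ ∑ D ∈ Finset.Icc 1 ⌊Y⌋₊, |∑ E ∈ D.divisors,
          (ArithmeticFunction.moebius (D / E) : ℝ) * ((AD D (X * ex E)).ncard : ℝ) -
          ∑ E ∈ D.divisors, (ArithmeticFunction.moebius (D / E) : ℝ) *
          (6 * AR * (X * ex E) ^ (2 / 3 : ℝ) * kp D * w3 D / D)| :=
          Finset.abs_sum_le_sum_abs _ _
      _ ≤ ∑ _D ∈ Finset.Icc 1 ⌊Y⌋₊, Y * (C2 * Y ^ 2 * (X * Y) ^ (1 / 2 : ℝ)) :=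
          Finset.sum_le_sum hb
      _ = (⌊Y⌋₊ : ℝ) * (Y * (C2 * Y ^ 2 * (X * Y) ^ (1 / 2 : ℝ))) := by
          rw [Finset.sum_const, nsmul_eq_mul, Nat.card_Icc]
          simp
      _ ≤ Y * (Y * (C2 * Y ^ 2 * (X * Y) ^ (1 / 2 : ℝ))) := by
          gcongr
          exact Nat.floor_le (by linarith)
      _ = C2 * X ^ (109 / 200 : ℝ) := by
          rw [Real.mul_rpow hX0.le (by linarith)]
          have h1 : Y ^ (4 : ℕ) = X ^ (1 / 25 : ℝ) := by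
            rw [hY, ← Real.rpow_natCast, ← Real.rpow_mul hX0.le]
            norm_num
          have h2 : Y ^ (1 / 2 : ℝ) = X ^ (1 / 200 : ℝ) := by
            rw [hY, ← Real.rpow_mul hX0.le]
            norm_num
          calc _ = C2 * (Y ^ (4 : ℕ) * X ^ (1 / 2 : ℝ) * Y ^ (1 / 2 : ℝ)) := by ring
            _ = C2 * (X ^ (1 / 25 : ℝ) * X ^ (1 / 2 : ℝ) * X ^ (1 / 200 : ℝ)) := by rw [h1, h2]
            _ = _ := by
                rw [← Real.rpow_add hX0, ← Real.rpow_add hX0]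
                norm_num
      _ ≤ C2 * X ^ (2 / 3 - c) := by
          gcongr
          linarith
  -- the main term
  have e3 : ∑ D ∈ Finset.Icc 1 ⌊Y⌋₊, ∑ E ∈ D.divisors, (ArithmeticFunction.moebius (D / E) : ℝ) *
        (6 * AR * (X * ex E) ^ (2 / 3 : ℝ) * kp D * w3 D / D) =
      6 * AR * X ^ (2 / 3 : ℝ) * ∑ D ∈ Finset.Icc 1 ⌊Y⌋₊, Sr D := by
    rw [Finset.mul_sum]
    refine Finset.sum_congr rfl fun D _ => ?_
    unfold Sr Gx
    rw [Finset.mul_sum, Finset.sum_mul, Finset.sum_div, Finset.mul_sum]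
    refine Finset.sum_congr rfl fun E _ => ?_
    rw [Real.mul_rpow hX0.le (ex_nonneg E)]
    ring
  have e4 : |6 * AR * X ^ (2 / 3 : ℝ) * ∑ D ∈ Finset.Icc 1 ⌊Y⌋₊, Sr D -
      6 * AR * (∑' D : ℕ, Sr D) * X ^ (2 / 3 : ℝ)| ≤ |6 * AR| * C4 * X ^ (2 / 3 - c) := by
    have h1 : 6 * AR * X ^ (2 / 3 : ℝ) * ∑ D ∈ Finset.Icc 1 ⌊Y⌋₊, Sr D -
      6 * AR * (∑' D : ℕ, Sr D) * X ^ (2 / 3 : ℝ) = -(6 * AR * X ^ (2 / 3 : ℝ) *
        (∑' D : ℕ, Sr D - ∑ D ∈ Finset.Icc 1 ⌊Y⌋₊, Sr D)) := by ring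
    rw [h1, abs_neg, abs_mul, abs_mul, abs_of_nonneg (Real.rpow_nonneg hX0.le _)]
    calc _ ≤ |6 * AR| * X ^ (2 / 3 : ℝ) * (C4 * Y ^ (-(1 / 12) : ℝ)) := by
          gcongr
          exact hV Y hY1
      _ = |6 * AR| * C4 * (X ^ (2 / 3 : ℝ) * Y ^ (-(1 / 12) : ℝ)) := by ring
      _ = |6 * AR| * C4 * X ^ (2 / 3 - 1 / 1200 : ℝ) := by
          rw [hY, ← Real.rpow_mul hX0.le, ← Real.rpow_add hX0]
          norm_num
      _ ≤ |6 * AR| * C4 * X ^ (2 / 3 - c) := by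
          gcongr
  rw [e3] at e2
  calc _ = |(((NS X).ncard : ℝ) - ∑ D ∈ Finset.Icc 1 ⌊Y⌋₊, ∑ E ∈ D.divisors,
      (ArithmeticFunction.moebius (D / E) : ℝ) * ((AD D (X * ex E)).ncard : ℝ)) +
      (∑ D ∈ Finset.Icc 1 ⌊Y⌋₊, ∑ E ∈ D.divisors,
      (ArithmeticFunction.moebius (D / E) : ℝ) * ((AD D (X * ex E)).ncard : ℝ) -
      6 * AR * X ^ (2 / 3 : ℝ) * ∑ D ∈ Finset.Icc 1 ⌊Y⌋₊, Sr D) +
      (6 * AR * X ^ (2 / 3 : ℝ) * ∑ D ∈ Finset.Icc 1 ⌊Y⌋₊, Sr D -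
      6 * AR * (∑' D : ℕ, Sr D) * X ^ (2 / 3 : ℝ))| := by
        congr 1
        ring
    _ ≤ C3 * C1 * X ^ (2 / 3 - c) + C2 * X ^ (2 / 3 - c) + |6 * AR| * C4 * X ^ (2 / 3 - c) :=
        (abs_add_three _ _ _).trans (add_le_add (add_le_add e1 e2) e4)
    _ = _ := by ring

end Pool.Agent.H82.AS
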