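import Mathlib
import Pool.Agent.H82.AS.Targets

/-!
# CVG: the singular series converges
-/

set_option autoImplicit false

open Pool.Agent.H38.RB Pool.Agent.H38.PS

namespace Pool.Agent.H82.AS

theorem Sr_zero : Sr 0 = 0 := by simp [Sr]

theorem pf_CVG (hQ : T_SQS) (hG : T_GBD) : T_CVG := by
  classical
  obtain ⟨C1, hC1, h1⟩ := hQ
  obtain ⟨C2, hC2, h2⟩ := hG
  have key : ∀ (Y : ℝ) (F : Finset ℕ), 1 ≤ Y → (∀ D ∈ F, D = 0 ∨ Y ≤ (D : ℝ)) →
      ∑ D ∈ F, |Sr D| ≤ C2 * C1 * Y ^ (-(1 / 12) : ℝ) := by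
    intro Y F hY hF
    have hsq : ∑ D ∈ F, |Sr D| = ∑ D ∈ F.filter (fun D => Sqf D ∧ 1 ≤ D), |Sr D| := by
      rw [Finset.sum_filter]
      refine Finset.sum_congr rfl fun D _ => ?_
      split_ifs with h
      · rfl
      · rcases Nat.eq_zero_or_pos D with h0 | h0
        · rw [h0, Sr_zero, abs_zero]
        · have : Gx D = 0 := (h2 D h0).1 fun hs => h ⟨hs, h0⟩
          simp [Sr, this]
    rw [hsq]
    calc _ ≤ ∑ D ∈ F.filter (fun D => Sqf D ∧ 1 ≤ D),
          C2 * ((D : ℝ) ^ (1 / 24 : ℝ) * ex D ^ (2 / 3 : ℝ) / D) := by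
          refine Finset.sum_le_sum fun D hD => ?_
          rw [Finset.mem_filter] at hD
          have hD0 : (0 : ℝ) < D := by exact_mod_cast hD.2.2
          have h3 := (h2 D hD.2.2).2
          rw [Sr, abs_div, abs_of_pos hD0]
          calc |w3 D * Gx D * kp D| / D ≤
                (C2 * (D : ℝ) ^ (1 / 24 : ℝ) * ex D ^ (2 / 3 : ℝ)) / D := by gcongr
            _ = _ := by ring
      _ = C2 * ∑ D ∈ F.filter (fun D => Sqf D ∧ 1 ≤ D),
          (D : ℝ) ^ (1 / 24 : ℝ) * ex D ^ (2 / 3 : ℝ) / D := by rw [Finset.mul_sum]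
      _ ≤ C2 * (C1 * Y ^ (-(1 / 12) : ℝ)) := by
          gcongr
          refine h1 Y _ hY fun D hD => ?_
          rw [Finset.mem_filter] at hD
          refine ⟨hD.2.1, hD.2.2, ?_⟩
          rcases hF D hD.1 with h | h
          · omega
          · exact h
      _ = _ := by ring
  have habs : Summable fun D => |Sr D| := by
    refine summable_of_sum_le (c := C2 * C1 * 1 ^ (-(1 / 12) : ℝ)) (fun D => abs_nonneg _)
      fun u => ?_
    refine key 1 u le_rfl fun D _ => ?_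
    rcases Nat.eq_zero_or_pos D with h | h
    · exact Or.inl h
    · exact Or.inr (by exact_mod_cast h)
  have hS : Summable Sr := habs.of_abs
  refine ⟨hS, C2 * C1, by positivity, fun Y hY => ?_⟩
  have ht : Filter.Tendsto (fun u : Finset ℕ => |∑ D ∈ u, Sr D - ∑ D ∈ Finset.Icc 1 ⌊Y⌋₊, Sr D|)
      Filter.atTop (nhds |∑' D : ℕ, Sr D - ∑ D ∈ Finset.Icc 1 ⌊Y⌋₊, Sr D|) :=
    (hS.hasSum.sub_const _).abs
  refine le_of_tendsto ht (Filter.eventually_atTop.2 ⟨Finset.Icc 1 ⌊Y⌋₊, fun u hu => ?_⟩)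
  rw [← Finset.sum_sdiff_eq_sub hu]
  refine (Finset.abs_sum_le_sum_abs _ _).trans (key Y _ hY fun D hD => ?_)
  rw [Finset.mem_sdiff, Finset.mem_Icc] at hD
  rcases Nat.eq_zero_or_pos D with h | h
  · exact Or.inl h
  · right
    have : ⌊Y⌋₊ < D := by
      by_contra h'
      exact hD.2 ⟨h, by omega⟩
    exact ((Nat.floor_lt (by linarith)).1 this).le

end Pool.Agent.H82.AS
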