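import Mathlib
import Pool.Agent.H82.AS.Targets

/-!
# TAL: triples of any height with a large squarefull divisor
-/

set_option autoImplicit false

open Pool.Agent.H38.RB Pool.Agent.H38.PS

namespace Pool.Agent.H82.AS

theorem pf_TAL (hT : T_TLB) (hG : Pool.Agent.H82.TG.T_GPL) : T_TAL := by
  intro η hη
  obtain ⟨c1, C1, hc1, hC1, h1⟩ := hT η hη
  obtain ⟨c2, C2, hc2, hC2, h2⟩ := hG (1 / 18) (by norm_num)
  refine ⟨min c1 c2, C1 + C2, lt_min hc1 hc2, by positivity, fun X hX => ?_⟩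
  obtain ⟨f1, n1⟩ := h1 X hX
  obtain ⟨f2, n2⟩ := h2 X hX
  have hsub : TL X (X ^ η) ⊆ {x | x ∈ TL X (X ^ η) ∧ (ht x : ℝ) ≤ X ^ (7 / 18 : ℝ)} ∪
      {x | Adm x ∧ (pd (pr x).primeFactors : ℝ) ≤ X ∧
        (pd (pr x).primeFactors : ℝ) ^ (1 / 3 + 1 / 18 : ℝ) < (ht x : ℝ)} := by
    intro x hx
    by_cases hxh : (ht x : ℝ) ≤ X ^ (7 / 18 : ℝ)
    · exact Or.inl ⟨hx, hxh⟩
    · refine Or.inr ⟨hx.1, hx.2.1, ?_⟩
      rw [not_le] at hxh
      refine lt_of_le_of_lt ?_ hxh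
      rw [show (1 / 3 + 1 / 18 : ℝ) = 7 / 18 by norm_num]
      exact Real.rpow_le_rpow (by positivity) hx.2.1 (by norm_num)
  refine ⟨(f1.union f2).subset hsub, ?_⟩
  have h3 : ((TL X (X ^ η)).ncard : ℝ) ≤
      ({x | x ∈ TL X (X ^ η) ∧ (ht x : ℝ) ≤ X ^ (7 / 18 : ℝ)}.ncard : ℝ) +
      ({x | Adm x ∧ (pd (pr x).primeFactors : ℝ) ≤ X ∧
        (pd (pr x).primeFactors : ℝ) ^ (1 / 3 + 1 / 18 : ℝ) < (ht x : ℝ)}.ncard : ℝ) := by
    have := (Set.ncard_le_ncard hsub (f1.union f2)).trans (Set.ncard_union_le _ _)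
    exact_mod_cast this
  calc _ ≤ C1 * X ^ (2 / 3 - c1) + C2 * X ^ (2 / 3 - c2) := h3.trans (add_le_add n1 n2)
    _ ≤ C1 * X ^ (2 / 3 - min c1 c2) + C2 * X ^ (2 / 3 - min c1 c2) := by
        gcongr
        · exact min_le_left _ _
        · exact min_le_right _ _
    _ = _ := by ring

end Pool.Agent.H82.AS
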