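import Mathlib
import Pool.Agent.H82.AS.Targets
import Pool.Agent.H38.AG.All
import Pool.Agent.H60.AS.ADT
import Pool.Agent.H82.AS.ASY
import Pool.Agent.H50.AS.BET
import Pool.Agent.H74.AS.BXD
import Pool.Agent.H82.AS.CVG
import Pool.Agent.H14.AS.DVB
import Pool.Agent.H83.AS.EUL
import Pool.Agent.H48.AS.FAC
import Pool.Agent.H66.AS.GBD
import Pool.Agent.H72.AS.GTB
import Pool.Agent.H48.AS.GXE
import Pool.Agent.H20.AS.IDN
import Pool.Agent.H83.AS.KPE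
import Pool.Agent.H56.AS.LTR
import Pool.Agent.H20.AS.MOB
import Pool.Agent.H3.AS.PAI
import Pool.Agent.H50.AS.PGN
import Pool.Agent.H14.AS.RDC
import Pool.Agent.H68.AS.SQB
import Pool.Agent.H34.AS.SQS
import Pool.Agent.H3.AS.SQT
import Pool.Agent.H82.AS.TAL
import Pool.Agent.H20.AS.ARI
import Pool.Agent.H19.AS.LPQ
import Pool.Agent.H20.AS.TLB

/-!
# Assembly of the asymptotic formula
-/

set_option autoImplicit false

namespace Pool.Agent.H82.AS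

theorem gtb : T_GTB := Pool.Agent.H72.AS.pf_GTB

theorem lpq : T_LPQ := Pool.Agent.H19.AS.pf_LPQ gtb

theorem ltr : T_LTR := Pool.Agent.H56.AS.pf_LTR lpq

theorem mob : T_MOB := Pool.Agent.H20.AS.pf_MOB ltr

theorem adt : T_ADT := Pool.Agent.H60.AS.pf_ADT mob Pool.Agent.H48.AS.pf_FAC

theorem sqb : T_SQB := Pool.Agent.H68.AS.pf_SQB

theorem dvb : T_DVB := Pool.Agent.H14.AS.pf_DVB

theorem sqt : T_SQT := Pool.Agent.H3.AS.pf_SQT Pool.Agent.H14.AS.pf_RDC sqb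

theorem sqs : T_SQS := Pool.Agent.H34.AS.pf_SQS sqt

theorem gbd : T_GBD := Pool.Agent.H66.AS.pf_GBD dvb sqb Pool.Agent.H3.AS.pf_PAI

theorem cvg : T_CVG := pf_CVG sqs gbd

theorem bxd : T_BXD := Pool.Agent.H74.AS.pf_BXD Pool.Agent.H50.AS.pf_PGN

theorem tlb : T_TLB := Pool.Agent.H20.AS.pf_TLB bxd sqb sqs sqt dvb

theorem tal : T_TAL := pf_TAL tlb Pool.Agent.H38.AG.gpl

theorem idn : T_IDN := Pool.Agent.H20.AS.pf_IDN sqb dvb Pool.Agent.H3.AS.pf_PAI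

theorem asy : T_ASY := pf_ASY tal adt idn cvg Pool.Agent.H82.RD.tfi

theorem eul : T_EUL :=
  Pool.Agent.H83.AS.pf_EUL Pool.Agent.H83.AS.pf_KPE Pool.Agent.H48.AS.pf_GXE cvg

theorem ari : T_ARI := Pool.Agent.H20.AS.pf_ARI gtb

end Pool.Agent.H82.AS
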