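import Mathlib
import Pool.Agent.H82.RD.Stmt

/-!
# The constant of the asymptotic formula
-/

set_option autoImplicit false

namespace Pool.Agent.H82.AS

/-- The factor at the prime `p`. -/
noncomputable def localFactor (p : ℕ) : ℝ :=
  (1 - 1 / (p : ℝ)) * (1 + 1 / (p : ℝ) + 3 / (p : ℝ) ^ (4 / 3 : ℝ) + 3 / (p : ℝ) ^ (5 / 3 : ℝ))

/-- The constant: `3 Γ(1/3) ^ 2 / Γ(2/3)`, which is the area of `|x y (x + y)| ≤ 1`, times the
product of the factors at all primes. -/
noncomputable def kappa : ℝ :=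
  3 * Real.Gamma (1 / 3) ^ 2 / Real.Gamma (2 / 3) * ∏' p : Nat.Primes, localFactor p

end Pool.Agent.H82.AS
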