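import Mathlib
import Pool.Agent.H82.AS.Stmt
import Pool.Agent.H82.AS.Targets
import Pool.Agent.H82.RD.Glue

/-!
# From the targets to the statement of the asymptotic formula
-/

set_option autoImplicit false

open Pool.Agent.H38.RB Pool.Agent.H38.PS Pool.Agent.H82.RD

namespace Pool.Agent.H82.AS

theorem kappa_eq (hEUL : T_EUL) (hARI : T_ARI) (hBET : T_BET) :
    kappa = 6 * AR * ∑' D : ℕ, Sr D := by
  have h1 : ∏' p : Nat.Primes, localFactor p = ∑' D : ℕ, Sr D := HasProd.tprod_eq hEUL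
  have h2 : 2 * AR = Real.Gamma (1 / 3) ^ 2 / Real.Gamma (2 / 3) := hARI.trans hBET
  rw [kappa, h1, mul_div_assoc, ← h2]
  ring

theorem glueA (hASY : T_ASY) (hEUL : T_EUL) (hARI : T_ARI) (hBET : T_BET) (hLOWC : T_LOWC) :
    (Multipliable fun p : Nat.Primes => localFactor p) ∧ 0 < kappa ∧
    ∃ c C : ℝ, 0 < c ∧ 0 < C ∧ ∀ X : ℝ, 1 ≤ X → (ByRadical X).Finite ∧
      |((ByRadical X).ncard : ℝ) - kappa * X ^ (2 / 3 : ℝ)| ≤ C * X ^ (2 / 3 - c) := by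
  obtain ⟨c, C, hc, hC, h⟩ := hASY
  have hk := kappa_eq hEUL hARI hBET
  have hmain : ∀ X : ℝ, 1 ≤ X → (ByRadical X).Finite ∧
      |((ByRadical X).ncard : ℝ) - kappa * X ^ (2 / 3 : ℝ)| ≤ C * X ^ (2 / 3 - c) := by
    intro X hX
    rw [byRadical_eq, hk]
    exact h X hX
  refine ⟨HasProd.multipliable hEUL, ?_, c, C, hc, hC, hmain⟩
  obtain ⟨c0, hc0, h0⟩ := hLOWC
  -- `c0 X ^ (2 / 3) ≤ kappa X ^ (2 / 3) + C X ^ (2 / 3 - c)` for all large `X`
  have h1 : ∀ X : ℝ, 8 ≤ X → c0 ≤ kappa + C * X ^ (-c) := by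
    intro X hX
    have hX0 : (0 : ℝ) < X := by linarith
    obtain ⟨f1, f2⟩ := hmain X (by linarith)
    have h2 : ({x | Adm x ∧ (pd (pr x).primeFactors : ℝ) ≤ X ∧ (ht x : ℝ) ≤ X}.ncard : ℝ) ≤
        ((ByRadical X).ncard : ℝ) := by
      have h3 := Set.ncard_le_ncard (s := {x | Adm x ∧ (pd (pr x).primeFactors : ℝ) ≤ X ∧
        (ht x : ℝ) ≤ X}) (t := ByRadical X) (by
          intro x hx
          rw [byRadical_eq]
          exact ⟨hx.1, hx.2.1⟩) f1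
      exact_mod_cast h3
    have h3 : c0 * X ^ (2 / 3 : ℝ) ≤ kappa * X ^ (2 / 3 : ℝ) + C * X ^ (2 / 3 - c) := by
      have := abs_le.1 f2
      linarith [h0 X hX, this.2]
    have h4 : X ^ (2 / 3 - c) = X ^ (2 / 3 : ℝ) * X ^ (-c) := by
      rw [← Real.rpow_add hX0]
      ring_nf
    have h5 : 0 < X ^ (2 / 3 : ℝ) := by positivity
    rw [h4] at h3
    have h6 : c0 * X ^ (2 / 3 : ℝ) ≤ (kappa + C * X ^ (-c)) * X ^ (2 / 3 : ℝ) := by
      linarith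
    exact le_of_mul_le_mul_right h6 h5
  have h2 : Filter.Tendsto (fun X : ℝ => kappa + C * X ^ (-c)) Filter.atTop
      (nhds (kappa + C * 0)) :=
    ((tendsto_rpow_neg_atTop hc).const_mul C).const_add kappa
  have h3 : c0 ≤ kappa + C * 0 :=
    ge_of_tendsto h2 (Filter.eventually_atTop.2 ⟨8, h1⟩)
  linarith

end Pool.Agent.H82.AS
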