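import Pool.Agent.H82.AS.Targets2
import Pool.Agent.H82.TG.Targets

/-!
# The tail of the height of the admissible triples ordered by radical (MP_7ecdd4_nt)

The proof of helper59, with the exponent chosen before `θ`.
-/

set_option autoImplicit false

open Pool.Agent.H38.RB Pool.Agent.H38.PS Pool.Agent.H82.AS

namespace Pool.Agent.H82.AS

/-- the dyadic geometric sums -/
theorem til_geom : ∃ S : ℝ, 0 < S ∧ ∀ (X e : ℝ) (J : ℕ), 1 ≤ X → 1 / 3 ≤ e →
    ∑ j ∈ Finset.range J, (X / 2 ^ j) ^ e ≤ S * X ^ e := by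
  set q : ℝ := (2 : ℝ) ^ (-(1 / 3) : ℝ) with hq
  have hq0 : 0 < q := Real.rpow_pos_of_pos (by norm_num) _
  have hq1 : q < 1 := Real.rpow_lt_one_of_one_lt_of_neg (by norm_num) (by norm_num)
  refine ⟨(1 - q)⁻¹, inv_pos.mpr (by linarith), fun X e J hX he => ?_⟩
  have hX0 : 0 < X := by linarith
  have h1 : ∀ j ∈ Finset.range J, (X / 2 ^ j) ^ e ≤ q ^ j * X ^ e := by
    intro j _
    rw [Real.div_rpow hX0.le (by positivity), div_eq_inv_mul]
    refine mul_le_mul_of_nonneg_right ?_ (Real.rpow_nonneg hX0.le _)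
    have h2 : ((2 : ℝ) ^ j) ^ e = ((2 : ℝ) ^ e) ^ j := by
      rw [← Real.rpow_natCast, ← Real.rpow_natCast, ← Real.rpow_mul (by norm_num),
        ← Real.rpow_mul (by norm_num), mul_comm]
    rw [h2, ← inv_pow]
    refine pow_le_pow_left₀ (by positivity) ?_ j
    rw [← Real.rpow_neg (by norm_num)]
    exact Real.rpow_le_rpow_of_exponent_le (by norm_num) (by linarith)
  refine (Finset.sum_le_sum h1).trans ?_
  rw [← Finset.sum_mul]
  refine mul_le_mul_of_nonneg_right ?_ (Real.rpow_nonneg hX0.le _)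
  have h3 := (summable_geometric_of_lt_one hq0.le hq1).sum_le_tsum (Finset.range J)
    (fun j _ => pow_nonneg hq0.le j)
  rw [tsum_geometric_of_lt_one hq0.le hq1] at h3
  exact h3

/-- **Row TIL.** -/
theorem pf_TIL (hT : T_TIR) (hG : Pool.Agent.H82.TG.T_GPL) : T_TIL := by
  obtain ⟨c', C', hc', hC', hE⟩ := hG (1 / 18) (by norm_num)
  obtain ⟨S, hS, hgeom⟩ := til_geom
  obtain ⟨c₁, hc₁⟩ : ∃ c₁ : ℝ, c₁ = 1 / 24 := ⟨_, rfl⟩
  have hc₁0 : 0 < c₁ := by rw [hc₁]; norm_num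
  have hc₁3 : c₁ ≤ 1 / 3 := by rw [hc₁]; norm_num
  set δ : ℝ := min c' c₁ with hδ
  refine ⟨δ, lt_min hc' hc₁0, fun θ hθ0 hθ1 => ?_⟩
  obtain ⟨C, hC, hA⟩ := hT θ hθ0 hθ1
  refine ⟨C' + 2 * C * S + C * S, by positivity, fun X lam hX hlam => ?_⟩
  have hX0 : 0 < X := by linarith
  have hlam0 : 0 < lam := by linarith
  obtain ⟨hEf, hEc⟩ := hE X hX
  set J : ℕ := ⌊Real.logb 2 X⌋₊ + 1 with hJ
  have hlogX : 0 ≤ Real.logb 2 X := Real.logb_nonneg (by norm_num) hX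
  have hRj : ∀ j ∈ Finset.range J, 1 ≤ X / 2 ^ j := by
    intro j hj
    have h1 : j ≤ ⌊Real.logb 2 X⌋₊ := Nat.lt_succ_iff.mp (Finset.mem_range.mp hj)
    have h2 : (j : ℝ) ≤ Real.logb 2 X := (Nat.le_floor_iff hlogX).mp h1
    have h3 : (2 : ℝ) ^ (j : ℝ) ≤ X := by
      rw [Real.le_logb_iff_rpow_le (by norm_num) hX0] at h2
      exact h2
    rw [Real.rpow_natCast] at h3
    rw [one_le_div (by positivity)]
    exact h3
  set A : ℕ → Set (Fin 3 → ℤ) := fun j => {x | Adm x ∧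
    (pd (pr x).primeFactors : ℝ) ≤ X / 2 ^ j ∧
    lam * (X / 2 ^ j) ^ (1 / 3 : ℝ) / 2 < (ht x : ℝ) ∧
    (ht x : ℝ) ≤ (X / 2 ^ j) ^ (7 / 18 : ℝ)} with hAdef
  set E : Set (Fin 3 → ℤ) := {x | Adm x ∧ (pd (pr x).primeFactors : ℝ) ≤ X ∧
    (pd (pr x).primeFactors : ℝ) ^ (1 / 3 + 1 / 18 : ℝ) < (ht x : ℝ)} with hEdef
  have hμ : ∀ j ∈ Finset.range J, 0 < lam * (X / 2 ^ j) ^ (1 / 3 : ℝ) / 2 := by
    intro j hj
    have h1 : 0 < (X / 2 ^ j) ^ (1 / 3 : ℝ) := Real.rpow_pos_of_pos (by positivity) _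
    positivity
  have hAf : ∀ j ∈ Finset.range J, (A j).Finite := fun j hj =>
    (hA (X / 2 ^ j) _ (hRj j hj) (hμ j hj)).1
  -- the covering
  have hcov : TT X lam ⊆ E ∪ ⋃ j ∈ Finset.range J, A j := by
    rintro x ⟨hx1, hx2, hx3⟩
    have hp1 : (1 : ℝ) ≤ (pd (pr x).primeFactors : ℝ) := by
      have : 1 ≤ pd (pr x).primeFactors :=
        Nat.one_le_iff_ne_zero.mpr (Finset.prod_ne_zero_iff.mpr fun p hp =>
          (Nat.prime_of_mem_primeFactors hp).ne_zero)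
      exact_mod_cast this
    set r : ℝ := (pd (pr x).primeFactors : ℝ) with hr
    have hr0 : 0 < r := by linarith
    by_cases hbig : r ^ (1 / 3 + 1 / 18 : ℝ) < (ht x : ℝ)
    · exact Or.inl ⟨hx1, hx2, hbig⟩
    · right
      push Not at hbig
      have hXr : 1 ≤ X / r := by
        rw [one_le_div hr0]
        exact hx2
      have hlog : 0 ≤ Real.logb 2 (X / r) := Real.logb_nonneg (by norm_num) hXr
      set j : ℕ := ⌊Real.logb 2 (X / r)⌋₊ with hj
      have h1 : (j : ℝ) ≤ Real.logb 2 (X / r) := Nat.floor_le hlog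
      have h2 : Real.logb 2 (X / r) < j + 1 := Nat.lt_floor_add_one _
      have h3 : (2 : ℝ) ^ j ≤ X / r := by
        rw [Real.le_logb_iff_rpow_le (by norm_num) (by positivity), Real.rpow_natCast] at h1
        exact h1
      have h4 : X / r < (2 : ℝ) ^ j * 2 := by
        rw [Real.logb_lt_iff_lt_rpow (by norm_num) (by positivity)] at h2
        have : (2 : ℝ) ^ ((j : ℝ) + 1) = 2 ^ j * 2 := by
          rw [Real.rpow_add (by norm_num), Real.rpow_natCast, Real.rpow_one]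
        rw [this] at h2
        exact h2
      have h5 : r ≤ X / 2 ^ j := by
        rw [le_div_iff₀ (by positivity)]
        rw [le_div_iff₀ hr0] at h3
        linarith
      have h6 : X / 2 ^ j / 2 < r := by
        rw [div_lt_iff₀ hr0] at h4
        rw [div_div, div_lt_iff₀ (by positivity)]
        linarith
      have hjJ : j ∈ Finset.range J := by
        rw [Finset.mem_range, hJ, Nat.lt_succ_iff]
        apply Nat.floor_le_floor
        exact Real.logb_le_logb_of_le (by norm_num) (by positivity) (div_le_self hX0.le hp1)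
      refine Set.mem_biUnion (x := j) hjJ ⟨hx1, h5, ?_, ?_⟩
      · refine lt_of_le_of_lt ?_ hx3
        have h7 : (X / 2 ^ j / 2) ^ (1 / 3 : ℝ) ≤ r ^ (1 / 3 : ℝ) :=
          Real.rpow_le_rpow (by positivity) h6.le (by norm_num)
        have h8 : (X / 2 ^ j) ^ (1 / 3 : ℝ) / 2 ≤ (X / 2 ^ j / 2) ^ (1 / 3 : ℝ) := by
          rw [Real.div_rpow (by positivity) (by norm_num) (x := X / 2 ^ j)]
          refine div_le_div_of_nonneg_left (Real.rpow_nonneg (by positivity) _)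
            (Real.rpow_pos_of_pos (by norm_num) _) ?_
          calc (2 : ℝ) ^ (1 / 3 : ℝ) ≤ (2 : ℝ) ^ (1 : ℝ) :=
                Real.rpow_le_rpow_of_exponent_le (by norm_num) (by norm_num)
            _ = 2 := Real.rpow_one 2
        calc lam * (X / 2 ^ j) ^ (1 / 3 : ℝ) / 2 = lam * ((X / 2 ^ j) ^ (1 / 3 : ℝ) / 2) := by ring
          _ ≤ lam * r ^ (1 / 3 : ℝ) := mul_le_mul_of_nonneg_left (h8.trans h7) hlam0.le
      · refine hbig.trans ?_
        have e1 : (1 / 3 + 1 / 18 : ℝ) = 7 / 18 := by norm_num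
        rw [e1]
        exact Real.rpow_le_rpow hr0.le h5 (by norm_num)
  have hUf : (⋃ j ∈ Finset.range J, A j).Finite :=
    Set.Finite.biUnion (Finset.finite_toSet _) hAf
  have hfin : (E ∪ ⋃ j ∈ Finset.range J, A j).Finite := hEf.union hUf
  refine ⟨hfin.subset hcov, ?_⟩
  -- counting
  have n1 : (TT X lam).ncard ≤ E.ncard + ∑ j ∈ Finset.range J, (A j).ncard :=
    (Set.ncard_le_ncard hcov hfin).trans ((Set.ncard_union_le _ _).trans
      (Nat.add_le_add_left (Finset.set_ncard_biUnion_le _ _) _))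
  have n2 : ((TT X lam).ncard : ℝ) ≤ (E.ncard : ℝ) + ∑ j ∈ Finset.range J, ((A j).ncard : ℝ) := by
    exact_mod_cast n1
  have n3 : ∀ j ∈ Finset.range J, ((A j).ncard : ℝ) ≤
      2 * C * lam ^ (-θ) * (X / 2 ^ j) ^ (2 / 3 : ℝ) + C * (X / 2 ^ j) ^ (2 / 3 - c₁) := by
    intro j hj
    have hR := hRj j hj
    set R := X / 2 ^ j with hRdef
    have hR0 : 0 < R := by linarith
    refine ((hA R _ hR (hμ j hj)).2).trans ?_
    have h1 : (lam * R ^ (1 / 3 : ℝ) / 2) ^ (-θ) =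
        lam ^ (-θ) * R ^ (-(θ / 3)) * (2 : ℝ) ^ θ := by
      rw [Real.div_rpow (by positivity) (by norm_num),
        Real.mul_rpow hlam0.le (Real.rpow_nonneg hR0.le _), ← Real.rpow_mul hR0.le,
        Real.rpow_neg (by norm_num : (0 : ℝ) ≤ 2), div_inv_eq_mul]
      congr 3
      ring
    have h2 : R ^ ((2 + θ) / 3) * (lam * R ^ (1 / 3 : ℝ) / 2) ^ (-θ) ≤
        2 * lam ^ (-θ) * R ^ (2 / 3 : ℝ) := by
      rw [h1]
      have h3 : R ^ ((2 + θ) / 3) * R ^ (-(θ / 3)) = R ^ (2 / 3 : ℝ) := by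
        rw [← Real.rpow_add hR0]
        congr 1
        ring
      have h4 : (2 : ℝ) ^ θ ≤ 2 := by
        calc (2 : ℝ) ^ θ ≤ (2 : ℝ) ^ (1 : ℝ) :=
              Real.rpow_le_rpow_of_exponent_le (by norm_num) hθ1.le
          _ = 2 := Real.rpow_one 2
      calc R ^ ((2 + θ) / 3) * (lam ^ (-θ) * R ^ (-(θ / 3)) * (2 : ℝ) ^ θ)
          = (R ^ ((2 + θ) / 3) * R ^ (-(θ / 3))) * lam ^ (-θ) * (2 : ℝ) ^ θ := by ring
        _ = R ^ (2 / 3 : ℝ) * lam ^ (-θ) * (2 : ℝ) ^ θ := by rw [h3]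
        _ ≤ R ^ (2 / 3 : ℝ) * lam ^ (-θ) * 2 :=
            mul_le_mul_of_nonneg_left h4 (mul_nonneg (Real.rpow_nonneg hR0.le _)
              (Real.rpow_nonneg hlam0.le _))
        _ = _ := by ring
    have h5 : R ^ (5 / 8 : ℝ) ≤ R ^ (2 / 3 - c₁) :=
      Real.rpow_le_rpow_of_exponent_le hR (by rw [hc₁]; norm_num)
    calc C * (R ^ ((2 + θ) / 3) * (lam * R ^ (1 / 3 : ℝ) / 2) ^ (-θ) + R ^ (5 / 8 : ℝ))
        ≤ C * (2 * lam ^ (-θ) * R ^ (2 / 3 : ℝ) + R ^ (2 / 3 - c₁)) :=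
          mul_le_mul_of_nonneg_left (add_le_add h2 h5) hC.le
      _ = _ := by ring
  have g1 := hgeom X (2 / 3) J hX (by norm_num)
  have g2 := hgeom X (2 / 3 - c₁) J hX (by linarith)
  have n4 : ∑ j ∈ Finset.range J, ((A j).ncard : ℝ) ≤
      2 * C * lam ^ (-θ) * (S * X ^ (2 / 3 : ℝ)) + C * (S * X ^ (2 / 3 - c₁)) := by
    refine (Finset.sum_le_sum n3).trans ?_
    rw [Finset.sum_add_distrib, ← Finset.mul_sum, ← Finset.mul_sum]
    refine add_le_add ?_ (mul_le_mul_of_nonneg_left g2 hC.le)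
    exact mul_le_mul_of_nonneg_left g1 (by positivity)
  have e2 : ∀ a : ℝ, δ ≤ a → X ^ (2 / 3 - a) ≤ X ^ (-δ) * X ^ (2 / 3 : ℝ) := by
    intro a ha
    rw [← Real.rpow_add hX0]
    exact Real.rpow_le_rpow_of_exponent_le hX (by linarith)
  have m1 := e2 c' (min_le_left _ _)
  have m2 := e2 c₁ (min_le_right _ _)
  set P : ℝ := X ^ (2 / 3 : ℝ) with hP
  set D : ℝ := X ^ (-δ) with hD
  set Λ : ℝ := lam ^ (-θ) with hΛ
  have hP0 : 0 ≤ P := Real.rpow_nonneg hX0.le _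
  have hD0 : 0 ≤ D := Real.rpow_nonneg hX0.le _
  have hΛ0 : 0 ≤ Λ := Real.rpow_nonneg hlam0.le _
  calc ((TT X lam).ncard : ℝ) ≤ C' * X ^ (2 / 3 - c') +
        (2 * C * Λ * (S * P) + C * (S * X ^ (2 / 3 - c₁))) := n2.trans (add_le_add hEc n4)
    _ ≤ C' * (D * P) + (2 * C * Λ * (S * P) + C * (S * (D * P))) := by
        gcongr
    _ ≤ (C' + 2 * C * S + C * S) * (Λ + D) * P := by
        have t1 : 0 ≤ C' * Λ * P := by positivity
        have t2 : 0 ≤ 2 * C * S * D * P := by positivity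
        have t3 : 0 ≤ C * S * Λ * P := by positivity
        linarith [t1, t2, t3, (by ring : (C' + 2 * C * S + C * S) * (Λ + D) * P =
          C' * (D * P) + (2 * C * Λ * (S * P) + C * (S * (D * P))) + C' * Λ * P +
            2 * C * S * D * P + C * S * Λ * P)]

end Pool.Agent.H82.AS
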