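import Mathlib
import Pool.Agent.H82.AS.All
import Pool.Agent.H82.AS.Targets2
import Pool.Agent.H96.AS.SQU
import Pool.Agent.H68.AS.BXM
import Pool.Agent.H1.AS.TIR
import Pool.Agent.H82.AS.TIL
import Pool.Agent.H11.AS.LTL

/-!
# Assembly of the tail of the height
-/

set_option autoImplicit false

namespace Pool.Agent.H82.AS

theorem squ : T_SQU := Pool.Agent.H96.AS.pf_SQU Pool.Agent.H14.AS.pf_RDC sqb

theorem bxm : T_BXM := Pool.Agent.H68.AS.pf_BXM Pool.Agent.H50.AS.pf_PGN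

theorem tir : T_TIR := Pool.Agent.H1.AS.pf_TIR bxm sqb squ sqt dvb

theorem til : T_TIL := pf_TIL tir Pool.Agent.H38.AG.gpl

theorem ltl : T_LTL := Pool.Agent.H11.AS.pf_LTL

end Pool.Agent.H82.AS
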