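import Mathlib
import Pool.Agent.H38.AG.Stmt

/-!
# The tail of the height of the admissible triples ordered by radical: statement
-/

set_option autoImplicit false

namespace Pool.Agent.H82.AS

open Pool.Agent.H38.AE.Statement

/-- The admissible triples, of any height, with radical of the product at most `X`, some entry of
which is larger than `lam` times the cube root of this radical. -/
def Tail (X lam : ℝ) : Set (Fin 3 → ℤ) :=
  {x | Admissible x ∧ (radical (∏ i, x i) : ℝ) ≤ X ∧
    ∃ i, lam * (radical (∏ i, x i) : ℝ) ^ (1 / 3 : ℝ) < |(x i : ℝ)|}

end Pool.Agent.H82.AS
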