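import Mathlib
import Pool.Agent.H82.AS.Targets2

/-!
# The exact exponent of the exceptional set for exponents slightly above `1 / 3`
-/

set_option autoImplicit false

open Pool.Agent.H38.RB Pool.Agent.H38.PS

namespace Pool.Agent.H82.AS

/-- the admissible triples with radical at most `X` and height larger than `rad ^ M` -/
def VM (M X : ℝ) : Set (Fin 3 → ℤ) :=
  {x | Adm x ∧ (pd (pr x).primeFactors : ℝ) ≤ X ∧ (pd (pr x).primeFactors : ℝ) ^ M < (ht x : ℝ)}

theorem one_le_pd (n : ℕ) : (1 : ℝ) ≤ (pd n.primeFactors : ℝ) := by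
  have : 1 ≤ pd n.primeFactors :=
    Nat.one_le_iff_ne_zero.mpr (Finset.prod_ne_zero_iff.mpr fun p hp =>
      (Nat.prime_of_mem_primeFactors hp).ne_zero)
  exact_mod_cast this

theorem vm_step (M X m : ℝ) (hm : M = 1 / 3 + m) (hm0 : 0 ≤ m) (hX : 2 ≤ X) :
    VM M X ⊆ VM M (X / 2) ∪ TT X ((X / 2) ^ m) := by
  rintro x ⟨h1, h2, h3⟩
  have hr := one_le_pd (pr x)
  set r : ℝ := (pd (pr x).primeFactors : ℝ) with hrdef
  have hr0 : 0 < r := by linarith
  rcases le_or_gt r (X / 2) with h | h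
  · exact Or.inl ⟨h1, h, h3⟩
  · refine Or.inr ⟨h1, h2, ?_⟩
    refine lt_of_le_of_lt ?_ h3
    rw [hm, Real.rpow_add hr0, mul_comm]
    refine mul_le_mul_of_nonneg_left ?_ (Real.rpow_nonneg hr0.le _)
    exact Real.rpow_le_rpow (by linarith) h.le hm0

theorem vm_base (M X m : ℝ) (hm : M = 1 / 3 + m) (hm0 : 0 ≤ m) : VM M X ⊆ TT X 1 := by
  rintro x ⟨h1, h2, h3⟩
  refine ⟨h1, h2, ?_⟩
  refine lt_of_le_of_lt ?_ h3
  rw [one_mul]
  exact Real.rpow_le_rpow_of_exponent_le (one_le_pd _) (by linarith)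

theorem adm112 : Adm ![1, 1, -2] := by
  refine ⟨?_, ?_, ?_⟩
  · intro i; fin_cases i <;> simp
  · intro i j hij
    fin_cases i <;> fin_cases j <;> simp_all [isCoprime_one_left, isCoprime_one_right]
  · simp

/-- VIO: the exact exponent of the exceptional set. -/
theorem pf_VIO (hT : T_TIL) (hL : T_LTL) : ∃ δ c : ℝ, 0 < δ ∧ 0 < c ∧ ∀ M : ℝ, 1 / 3 ≤ M →
    M ≤ 1 / 3 + δ → (∀ X : ℝ, 2 ≤ X → c * X ^ (1 - M) ≤ ((VM M X).ncard : ℝ)) ∧
    ∀ ε : ℝ, 0 < ε → ∃ C : ℝ, 0 < C ∧ ∀ X : ℝ, 1 ≤ X → (VM M X).Finite ∧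
      ((VM M X).ncard : ℝ) ≤ C * X ^ (1 - M + ε) := by
  obtain ⟨δ, hδ, hT⟩ := hT
  obtain ⟨c0, hc0, hL⟩ := hL
  have hfin : ∀ X : ℝ, 1 ≤ X → ∀ M m : ℝ, M = 1 / 3 + m → 0 ≤ m → (VM M X).Finite := by
    intro X hX M m hm hm0
    obtain ⟨C, hC, h⟩ := hT 0 le_rfl one_pos
    exact (h X 1 hX le_rfl).1.subset (vm_base M X m hm hm0)
  refine ⟨min δ (1 / 12), min c0 (1 / 3 ^ 12), by positivity, by positivity, fun M hM1 hM2 => ?_⟩
  set m : ℝ := M - 1 / 3 with hmdef
  have hm : M = 1 / 3 + m := by rw [hmdef]; ring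
  have hm0 : 0 ≤ m := by rw [hmdef]; linarith
  have hmδ : m ≤ δ := by
    have := min_le_left δ (1 / 12)
    rw [hmdef]; linarith
  have hm12 : m ≤ 1 / 12 := by
    have := min_le_right δ (1 / 12)
    rw [hmdef]; linarith
  refine ⟨fun X hX => ?_, fun ε hε => ?_⟩
  · -- lower bound
    have hX0 : 0 < X := by linarith
    rcases le_or_gt ((3 : ℝ) ^ 12) X with h12 | h12
    · have hlam : 1 ≤ X ^ m := Real.one_le_rpow (by linarith) hm0
      have h3 : 3 * X ^ m ≤ X ^ (1 / 6 : ℝ) := by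
        have h4 : (3 : ℝ) ≤ X ^ (1 / 12 : ℝ) := by
          calc (3 : ℝ) = ((3 : ℝ) ^ 12) ^ (1 / 12 : ℝ) := by
                rw [← Real.rpow_natCast, ← Real.rpow_mul (by norm_num)]
                norm_num
            _ ≤ X ^ (1 / 12 : ℝ) := Real.rpow_le_rpow (by positivity) h12 (by norm_num)
        calc 3 * X ^ m ≤ X ^ (1 / 12 : ℝ) * X ^ (1 / 12 : ℝ) := by
              gcongr
              linarith
          _ = X ^ (1 / 6 : ℝ) := by
              rw [← Real.rpow_add hX0]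
              norm_num
      obtain ⟨f1, f2⟩ := hL X (X ^ m) hlam h3
      have hsub : {x | x ∈ TT X (X ^ m) ∧ (ht x : ℝ) ≤ X} ⊆ VM M X := by
        rintro x ⟨⟨h1, h2, h4⟩, -⟩
        refine ⟨h1, h2, lt_of_le_of_lt ?_ h4⟩
        have hr := one_le_pd (pr x)
        have hr0 : (0 : ℝ) < (pd (pr x).primeFactors : ℝ) := by linarith
        rw [hm, Real.rpow_add hr0, mul_comm]
        refine mul_le_mul_of_nonneg_right ?_ (Real.rpow_nonneg hr0.le _)
        exact Real.rpow_le_rpow hr0.le h2 hm0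
      have h5 : ({x | x ∈ TT X (X ^ m) ∧ (ht x : ℝ) ≤ X}.ncard : ℝ) ≤ ((VM M X).ncard : ℝ) := by
        exact_mod_cast Set.ncard_le_ncard hsub (hfin X (by linarith) M m hm hm0)
      calc min c0 (1 / 3 ^ 12) * X ^ (1 - M) ≤ c0 * X ^ (1 - M) := by
            gcongr
            exact min_le_left _ _
        _ = c0 * (X ^ m)⁻¹ * X ^ (2 / 3 : ℝ) := by
            rw [← Real.rpow_neg hX0.le, mul_assoc, ← Real.rpow_add hX0]
            congr 2
            rw [hm]; ring
        _ ≤ _ := f2.trans h5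
    · have hmem : (![1, 1, -2] : Fin 3 → ℤ) ∈ VM M X := by
        have hpr : pr ![1, 1, -2] = 2 := rfl
        refine ⟨adm112, ?_, ?_⟩
        · rw [hpr, pd, Nat.Prime.primeFactors Nat.prime_two]
          simpa using hX
        · rw [hpr, pd, Nat.Prime.primeFactors Nat.prime_two]
          have : ht ![1, 1, -2] = 2 := rfl
          rw [this]
          simp only [Finset.prod_singleton]
          calc ((2 : ℕ) : ℝ) ^ M < ((2 : ℕ) : ℝ) ^ (1 : ℝ) :=
                Real.rpow_lt_rpow_of_exponent_lt (by norm_num) (by rw [hm]; linarith)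
            _ = ((2 : ℕ) : ℝ) := Real.rpow_one _
      have h1 : 1 ≤ (VM M X).ncard := by
        rw [Nat.one_le_iff_ne_zero]
        exact ((Set.ncard_pos (hfin X (by linarith) M m hm hm0)).2 ⟨_, hmem⟩).ne'
      have h2 : X ^ (1 - M) ≤ 3 ^ 12 := by
        calc X ^ (1 - M) ≤ X ^ (1 : ℝ) :=
              Real.rpow_le_rpow_of_exponent_le (by linarith) (by linarith)
          _ = X := Real.rpow_one X
          _ ≤ 3 ^ 12 := h12.le
      calc min c0 (1 / 3 ^ 12) * X ^ (1 - M) ≤ 1 / 3 ^ 12 * 3 ^ 12 :=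
            mul_le_mul (min_le_right _ _) h2 (by positivity) (by norm_num)
        _ = 1 := by norm_num
        _ ≤ _ := by exact_mod_cast h1
  · -- upper bound
    obtain ⟨e, he⟩ : ∃ e : ℝ, e = min ε (1 / 2) := ⟨_, rfl⟩
    have he0 : 0 < e := by rw [he]; positivity
    have heε : e ≤ ε := by rw [he]; exact min_le_left _ _
    have he2 : e ≤ 1 / 2 := by rw [he]; exact min_le_right _ _
    obtain ⟨C, hC, h⟩ := hT (1 - e) (by linarith) (by linarith)
    obtain ⟨q, hq⟩ : ∃ q : ℝ, q = (2 : ℝ) ^ (-(1 / 3) : ℝ) := ⟨_, rfl⟩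
    have hq0 : 0 < q := by rw [hq]; positivity
    have hq1 : q < 1 := by
      rw [hq]; exact Real.rpow_lt_one_of_one_lt_of_neg (by norm_num) (by norm_num)
    obtain ⟨a, ha⟩ : ∃ a : ℝ, a = 2 / 3 - m * (1 - e) := ⟨_, rfl⟩
    have ha3 : 1 / 3 ≤ a := by rw [ha]; nlinarith
    have haε : a ≤ 1 - M + ε := by
      rw [ha, hm]
      nlinarith
    obtain ⟨K, hK⟩ : ∃ K : ℝ, K = 4 * C / (1 - q) := ⟨_, rfl⟩
    have hq1' : 0 < 1 - q := by linarith
    have hK0 : 0 < K := by rw [hK]; positivity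
    have hKq : K * (1 - q) = 4 * C := by rw [hK]; field_simp
    have main : ∀ n : ℕ, ∀ X : ℝ, 1 ≤ X → X < 2 ^ (n + 1) → ((VM M X).ncard : ℝ) ≤ K * X ^ a := by
      intro n
      induction n with
      | zero =>
        intro X hX hX2
        have hX0 : 0 < X := by linarith
        obtain ⟨f1, f2⟩ := h X 1 hX le_rfl
        have h1 : ((VM M X).ncard : ℝ) ≤ ((TT X 1).ncard : ℝ) := by
          exact_mod_cast Set.ncard_le_ncard (vm_base M X m hm hm0) f1
        have h2 : X ^ (2 / 3 : ℝ) ≤ 2 := by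
          calc X ^ (2 / 3 : ℝ) ≤ X ^ (1 : ℝ) :=
                Real.rpow_le_rpow_of_exponent_le hX (by norm_num)
            _ = X := Real.rpow_one X
            _ ≤ 2 := by norm_num at hX2; linarith
        have h3 : X ^ (-δ) ≤ 1 := Real.rpow_le_one_of_one_le_of_nonpos hX (by linarith)
        have h4 : 1 ≤ X ^ a := Real.one_le_rpow hX (by linarith)
        have h5 : 0 ≤ X ^ (-δ) := by positivity
        calc ((VM M X).ncard : ℝ) ≤ C * (1 ^ (-(1 - e)) + X ^ (-δ)) * X ^ (2 / 3 : ℝ) :=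
              h1.trans f2
          _ ≤ C * (1 + 1) * 2 := by
              rw [Real.one_rpow]
              gcongr
          _ = 4 * C := by ring
          _ = K * (1 - q) * 1 := by rw [hKq]; ring
          _ ≤ K * 1 * X ^ a := by
              gcongr
              linarith
          _ = K * X ^ a := by ring
      | succ n ih =>
        intro X hX hX2
        have hX0 : 0 < X := by linarith
        rcases lt_or_ge X 2 with hlt | hge
        · refine ih X hX (lt_of_lt_of_le hlt ?_)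
          calc (2 : ℝ) = 2 ^ 1 := by norm_num
            _ ≤ 2 ^ (n + 1) := pow_le_pow_right₀ (by norm_num) (by omega)
        have hX1 : 1 ≤ X / 2 := by linarith
        have ih' := ih (X / 2) hX1 (by rw [pow_succ] at hX2; linarith)
        have hlam : 1 ≤ (X / 2) ^ m := Real.one_le_rpow hX1 hm0
        obtain ⟨f1, f2⟩ := h X ((X / 2) ^ m) hX hlam
        have h1 : ((VM M X).ncard : ℝ) ≤
            ((VM M (X / 2)).ncard : ℝ) + ((TT X ((X / 2) ^ m)).ncard : ℝ) := by
          have := (Set.ncard_le_ncard (vm_step M X m hm hm0 hge)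
            ((hfin (X / 2) hX1 M m hm hm0).union f1)).trans (Set.ncard_union_le _ _)
          exact_mod_cast this
        have h2 : ((X / 2) ^ m) ^ (-(1 - e)) ≤ 2 * X ^ (-(m * (1 - e))) := by
          have h20 : (2 : ℝ) ^ (m * (1 - e)) ≤ 2 := by
            calc (2 : ℝ) ^ (m * (1 - e)) ≤ (2 : ℝ) ^ (1 : ℝ) :=
                  Real.rpow_le_rpow_of_exponent_le (by norm_num) (by nlinarith)
              _ = 2 := Real.rpow_one 2
          rw [← Real.rpow_mul (by linarith), Real.div_rpow hX0.le (by norm_num), mul_neg,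
            Real.rpow_neg (by norm_num : (0 : ℝ) ≤ 2), div_inv_eq_mul, mul_comm]
          exact mul_le_mul_of_nonneg_right h20 (by positivity)
        have h3 : X ^ (-δ) ≤ X ^ (-(m * (1 - e))) :=
          Real.rpow_le_rpow_of_exponent_le hX (by nlinarith)
        have h4 : ((TT X ((X / 2) ^ m)).ncard : ℝ) ≤ 3 * C * X ^ a := by
          calc ((TT X ((X / 2) ^ m)).ncard : ℝ) ≤
                C * (((X / 2) ^ m) ^ (-(1 - e)) + X ^ (-δ)) * X ^ (2 / 3 : ℝ) := f2
            _ ≤ C * (2 * X ^ (-(m * (1 - e))) + X ^ (-(m * (1 - e)))) * X ^ (2 / 3 : ℝ) := by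
                gcongr
            _ = 3 * C * (X ^ (-(m * (1 - e))) * X ^ (2 / 3 : ℝ)) := by ring
            _ = 3 * C * X ^ a := by
                rw [← Real.rpow_add hX0, ha]
                ring_nf
        have h5 : (X / 2) ^ a ≤ q * X ^ a := by
          rw [Real.div_rpow hX0.le (by norm_num), div_eq_inv_mul]
          refine mul_le_mul_of_nonneg_right ?_ (by positivity)
          rw [hq, ← Real.rpow_neg (by norm_num)]
          exact Real.rpow_le_rpow_of_exponent_le (by norm_num) (by linarith)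
        have h6 : 0 ≤ X ^ a := by positivity
        calc ((VM M X).ncard : ℝ) ≤ K * (X / 2) ^ a + 3 * C * X ^ a :=
              h1.trans (add_le_add ih' h4)
          _ ≤ K * (q * X ^ a) + 4 * C * X ^ a := by
              gcongr
              norm_num
          _ = K * (q * X ^ a) + K * (1 - q) * X ^ a := by rw [hKq]
          _ = K * X ^ a := by ring
    refine ⟨K, hK0, fun X hX => ⟨hfin X hX M m hm hm0, ?_⟩⟩
    obtain ⟨n, hn⟩ := pow_unbounded_of_one_lt X (one_lt_two : (1 : ℝ) < 2)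
    have h1 := main n X hX (hn.trans (by
      rw [pow_succ]
      have : (0 : ℝ) < 2 ^ n := by positivity
      linarith))
    refine h1.trans ?_
    gcongr

end Pool.Agent.H82.AS
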