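import Mathlib
import Pool.Agent.H38.AG.Glue
import Pool.Agent.H82.AS.TailStmt
import Pool.Agent.H82.AS.VIO

/-!
# From the targets to the statement of the tail
-/

set_option autoImplicit false

open Pool.Agent.H38.RB Pool.Agent.H38.PS Pool.Agent.H38.AE.Statement Pool.Agent.H38.AG

namespace Pool.Agent.H82.AS

theorem tail_eq (X lam : ℝ) : Tail X lam = TT X lam := by
  ext x
  simp only [Tail, TT, Set.mem_setOf_eq, Pool.Agent.H38.PS.adm_iff,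
    Pool.Agent.H38.PS.radical_eq]
  refine and_congr_right fun _ => and_congr_right fun _ => ⟨?_, fun h => ?_⟩
  · rintro ⟨i, hi⟩
    exact hi.trans_le (abs_le_ht x i)
  · obtain ⟨i, hi⟩ := exists_ht x
    exact ⟨i, by rwa [hi]⟩

theorem violators_eq_VM (M X : ℝ) : Violators M X = VM M X := violators_eq M X

theorem tailGlue (hT : T_TIL) (hL : T_LTL) :
    (∃ δ : ℝ, 0 < δ ∧ ∀ θ : ℝ, 0 ≤ θ → θ < 1 → ∃ C : ℝ, 0 < C ∧ ∀ X lam : ℝ, 1 ≤ X → 1 ≤ lam →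
      (Tail X lam).Finite ∧
      ((Tail X lam).ncard : ℝ) ≤ C * (lam ^ (-θ) + X ^ (-δ)) * X ^ (2 / 3 : ℝ)) ∧
    (∃ c : ℝ, 0 < c ∧ ∀ X lam : ℝ, 1 ≤ X → 1 ≤ lam → 3 * lam ≤ X ^ (1 / 6 : ℝ) →
      c * lam⁻¹ * X ^ (2 / 3 : ℝ) ≤ ((Tail X lam).ncard : ℝ)) ∧
    (∃ δ c : ℝ, 0 < δ ∧ 0 < c ∧ ∀ M : ℝ, 1 / 3 ≤ M → M ≤ 1 / 3 + δ →
      (∀ X : ℝ, 2 ≤ X → c * X ^ (1 - M) ≤ ((Violators M X).ncard : ℝ)) ∧
      ∀ ε : ℝ, 0 < ε → ∃ C : ℝ, 0 < C ∧ ∀ X : ℝ, 1 ≤ X → (Violators M X).Finite ∧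
        ((Violators M X).ncard : ℝ) ≤ C * X ^ (1 - M + ε)) := by
  refine ⟨?_, ?_, ?_⟩
  · simp only [tail_eq]
    exact hT
  · obtain ⟨c, hc, h⟩ := hL
    obtain ⟨δ, -, hT'⟩ := hT
    obtain ⟨C, -, hfin⟩ := hT' 0 le_rfl one_pos
    refine ⟨c, hc, fun X lam hX hlam h3 => ?_⟩
    rw [tail_eq]
    refine (h X lam hlam h3).2.trans ?_
    have h1 : {x | x ∈ TT X lam ∧ (ht x : ℝ) ≤ X} ⊆ TT X lam := fun x hx => hx.1
    exact_mod_cast Set.ncard_le_ncard h1 (hfin X lam hX hlam).1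
  · simp only [violators_eq_VM]
    exact pf_VIO hT hL

end Pool.Agent.H82.AS
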